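import Pool.Agent.H31.MP.Targets3

/-!
# MP_76b9e7_nt, rows DG and QY: the diagonal form and the quadratic forms in the diagonal variables
-/

set_option autoImplicit false

open Finset Real ArithmeticFunction
open scoped Nat ArithmeticFunction.Moebius

namespace Pool.Agent.H45.MP

open Pool.Agent.H31.MP

theorem mem_RS {z Y : ℝ} {a : ℕ} : a ∈ RS z Y ↔ (1 ≤ a ∧ a ≤ ⌊Y⌋₊) ∧ Rgh z a := by
  classical
  unfold RS
  rw [mem_filter, mem_Icc]

theorem RS_dvd {z Y : ℝ} {a r : ℕ} (ha : a ∈ RS z Y) (h : r ∣ a) : r ∈ RS z Y := by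
  rw [mem_RS] at ha ⊢
  have hr : 0 < r := Nat.pos_of_dvd_of_pos h ha.1.1
  exact ⟨⟨hr, (Nat.le_of_dvd ha.1.1 h).trans ha.1.2⟩, ha.2.1.squarefree_of_dvd h,
    fun p hp hpr => ha.2.2 p hp (hpr.trans h)⟩

theorem mem_Bx {K : ℕ} {z Y : ℝ} {d : Fin K → ℕ} : d ∈ Bx K z Y ↔ ∀ i, d i ∈ RS z Y := by
  unfold Bx
  rw [Fintype.mem_piFinset]

theorem gcd_sum {K : ℕ} {z Y : ℝ} {d e : Fin K → ℕ} (hd : d ∈ Bx K z Y) :
    ∑ r ∈ (Bx K z Y).filter (fun r => (∀ i, r i ∣ d i) ∧ ∀ i, r i ∣ e i),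
      (∏ i, ((r i).totient : ℝ)) = ∏ i, ((Nat.gcd (d i) (e i) : ℕ) : ℝ) := by
  classical
  have h1 : ∏ i, ((Nat.gcd (d i) (e i) : ℕ) : ℝ) =
      ∏ i, ∑ a ∈ (Nat.gcd (d i) (e i)).divisors, (a.totient : ℝ) := by
    refine Finset.prod_congr rfl fun i _ => ?_
    rw [← Nat.cast_sum, Nat.sum_totient]
  rw [h1, Finset.prod_univ_sum]
  refine Finset.sum_congr ?_ fun _ _ => rfl
  ext r
  rw [mem_filter, Fintype.mem_piFinset, mem_Bx]
  constructor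
  · rintro ⟨_, h2, h3⟩ i
    rw [Nat.mem_divisors]
    have hdi := (mem_RS.1 (mem_Bx.1 hd i)).1.1
    exact ⟨Nat.dvd_gcd (h2 i) (h3 i), (Nat.gcd_pos_of_pos_left _ hdi).ne'⟩
  · intro h
    have h2 : ∀ i, r i ∣ d i := fun i =>
      (Nat.dvd_of_mem_divisors (h i)).trans (Nat.gcd_dvd_left _ _)
    have h3 : ∀ i, r i ∣ e i := fun i =>
      (Nat.dvd_of_mem_divisors (h i)).trans (Nat.gcd_dvd_right _ _)
    exact ⟨fun i => RS_dvd (mem_Bx.1 hd i) (h2 i), h2, h3⟩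

theorem pf_DG : T_DG := by
  classical
  intro K z Y l
  unfold QF
  have hR : ∀ r ∈ Bx K z Y, (∏ i, ((r i).totient : ℝ)) *
      (∑ d ∈ Bx K z Y, if ∀ i, r i ∣ d i then l d / ∏ i, (d i : ℝ) else 0) ^ 2 =
      ∑ d ∈ Bx K z Y, ∑ e ∈ Bx K z Y,
        (if (∀ i, r i ∣ d i) ∧ ∀ i, r i ∣ e i then (∏ i, ((r i).totient : ℝ)) else 0) *
          (l d / (∏ i, (d i : ℝ)) * (l e / ∏ i, (e i : ℝ))) := by
    intro r _
    rw [sq, Finset.sum_mul_sum, Finset.mul_sum]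
    refine Finset.sum_congr rfl fun d _ => ?_
    rw [Finset.mul_sum]
    refine Finset.sum_congr rfl fun e _ => ?_
    by_cases h1 : ∀ i, r i ∣ d i
    · by_cases h2 : ∀ i, r i ∣ e i
      · rw [if_pos h1, if_pos h2, if_pos ⟨h1, h2⟩]
      · have h3 : ¬ ((∀ i, r i ∣ d i) ∧ ∀ i, r i ∣ e i) := fun h => h2 h.2
        rw [if_pos h1, if_neg h2, if_neg h3, mul_zero, mul_zero, zero_mul]
    · have h3 : ¬ ((∀ i, r i ∣ d i) ∧ ∀ i, r i ∣ e i) := fun h => h1 h.1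
      rw [if_neg h1, if_neg h3, zero_mul, mul_zero, zero_mul]
  rw [Finset.sum_congr rfl hR]
  symm
  refine Finset.sum_comm.trans ?_
  refine Finset.sum_congr rfl fun d hd => ?_
  refine Finset.sum_comm.trans ?_
  refine Finset.sum_congr rfl fun e he => ?_
  rw [← Finset.sum_mul, ← Finset.sum_filter, gcd_sum hd]
  have hd0 : ∏ i, (d i : ℝ) ≠ 0 := by
    refine Finset.prod_ne_zero_iff.2 fun i _ => ?_
    have := (mem_RS.1 (mem_Bx.1 hd i)).1.1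
    positivity
  have he0 : ∏ i, (e i : ℝ) ≠ 0 := by
    refine Finset.prod_ne_zero_iff.2 fun i _ => ?_
    have := (mem_RS.1 (mem_Bx.1 he i)).1.1
    positivity
  have hl0 : ∏ i, (Nat.lcm (d i) (e i) : ℝ) ≠ 0 := by
    refine Finset.prod_ne_zero_iff.2 fun i _ => ?_
    have h1 := (mem_RS.1 (mem_Bx.1 hd i)).1.1
    have h2 := (mem_RS.1 (mem_Bx.1 he i)).1.1
    have h3 : 0 < Nat.lcm (d i) (e i) := Nat.lcm_pos h1 h2
    positivity
  have hprod : (∏ i, ((Nat.gcd (d i) (e i) : ℕ) : ℝ)) * (∏ i, (Nat.lcm (d i) (e i) : ℝ)) =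
      (∏ i, (d i : ℝ)) * ∏ i, (e i : ℝ) := by
    rw [← Finset.prod_mul_distrib, ← Finset.prod_mul_distrib]
    refine Finset.prod_congr rfl fun i _ => ?_
    rw [← Nat.cast_mul, Nat.gcd_mul_lcm, Nat.cast_mul]
  field_simp
  linear_combination (l d * l e) * hprod

theorem totient_prod_pos {K : ℕ} {z Y : ℝ} {r : Fin K → ℕ} (hr : r ∈ Bx K z Y) :
    0 < ∏ i, ((r i).totient : ℝ) := by
  refine Finset.prod_pos fun i _ => ?_
  have h1 := (mem_RS.1 (mem_Bx.1 hr i)).1.1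
  exact_mod_cast Nat.totient_pos.2 h1

theorem moeb_prod_sq {K : ℕ} {z Y : ℝ} {r : Fin K → ℕ} (hr : r ∈ Bx K z Y) :
    (∏ i, ((μ (r i) : ℤ) : ℝ)) ^ 2 = 1 := by
  rw [← Finset.prod_pow]
  refine Finset.prod_eq_one fun i _ => ?_
  have h1 : Squarefree (r i) := (mem_RS.1 (mem_Bx.1 hr i)).2.1
  have h2 : (μ (r i)) ^ 2 = 1 := by
    rw [ArithmeticFunction.moebius_sq, if_pos h1]
  exact_mod_cast h2

theorem pf_QY (hDG : T_DG) (hIV : T_IV) : T_QY := by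
  classical
  intro K z Y y
  constructor
  · rw [hDG K z Y (lw z Y y)]
    refine Finset.sum_congr rfl fun r hr => ?_
    rw [(hIV K z Y y r hr).1, mul_pow, moeb_prod_sq hr]
    have h0 := (totient_prod_pos hr).ne'
    field_simp
  · intro i₀
    rw [hDG K z Y (res i₀ (lw z Y y)), Finset.sum_filter]
    refine Finset.sum_congr rfl fun r hr => ?_
    rw [(hIV K z Y y r hr).2 i₀]
    by_cases h : r i₀ = 1
    · rw [if_pos h, if_pos h, mul_pow, moeb_prod_sq hr]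
      have h0 := (totient_prod_pos hr).ne'
      field_simp
    · rw [if_neg h, if_neg h]; ring

end Pool.Agent.H45.MP
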