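import Pool.Agent.H31.MP.Targets2
import Pool.Agent.H31.MP.Targets4

/-!
# MP_76b9e7_nt, row MA: lower bound for the density
-/

set_option autoImplicit false

open Finset Real ArithmeticFunction
open scoped Nat

namespace Pool.Agent.H45.MP

open Pool.Agent.H31.MP
open Pool.Agent.H30.BV (NX wx WX)

theorem nu_le_card {K : ℕ} (h : Fin K → ℕ) (p : ℕ) : nu h p ≤ K := by
  classical
  unfold nu
  have h1 : ((range p).filter fun a => ∃ i, p ∣ a + h i) ⊆
      (univ : Finset (Fin K)).biUnion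
        (fun i => (range p).filter fun a => p ∣ a + h i) := by
    intro a ha
    rw [mem_filter] at ha
    obtain ⟨i, hi⟩ := ha.2
    rw [mem_biUnion]
    exact ⟨i, mem_univ _, mem_filter.2 ⟨ha.1, hi⟩⟩
  refine (Finset.card_le_card h1).trans ?_
  refine Finset.card_biUnion_le.trans ?_
  calc ∑ i : Fin K, ((range p).filter fun a => p ∣ a + h i).card ≤ ∑ _i : Fin K, 1 := by
        refine Finset.sum_le_sum fun i _ => ?_
        rw [Finset.card_le_one]
        intro a ha b hb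
        rw [mem_filter, mem_range] at ha hb
        have h2 : a + h i ≡ b + h i [MOD p] := by
          have e1 : a + h i ≡ 0 [MOD p] := (Nat.modEq_zero_iff_dvd).2 ha.2
          have e2 : b + h i ≡ 0 [MOD p] := (Nat.modEq_zero_iff_dvd).2 hb.2
          exact e1.trans e2.symm
        have h3 : a ≡ b [MOD p] := Nat.ModEq.add_right_cancel' _ h2
        exact Nat.ModEq.eq_of_lt_of_lt h3 ha.1 hb.1
    _ = K := by simp

theorem one_sub_ge {u : ℝ} (h0 : 0 ≤ u) (h1 : u ≤ 1 / 2) : Real.exp (-u - 2 * u ^ 2) ≤ 1 - u := by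
  have h2 : 0 < 1 - u := by linarith
  have h3 := Real.one_sub_inv_le_log_of_pos h2
  have h4 : -u - 2 * u ^ 2 ≤ 1 - (1 - u)⁻¹ := by
    have h5 : (1 - u) * (1 - u)⁻¹ = 1 := mul_inv_cancel₀ h2.ne'
    have h6 : (1 - u)⁻¹ = 1 + u * (1 - u)⁻¹ := by linear_combination h5
    have h7 : (1 - u)⁻¹ ≤ 2 := by
      rw [inv_le_comm₀ h2 (by norm_num)]
      linarith
    have h8 : (1 - u)⁻¹ = 1 + u + u ^ 2 * (1 - u)⁻¹ := by
      linear_combination (1 + u) * h5
    have h9 : u ^ 2 * (1 - u)⁻¹ ≤ u ^ 2 * 2 := mul_le_mul_of_nonneg_left h7 (by positivity)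
    linarith
  calc Real.exp (-u - 2 * u ^ 2) ≤ Real.exp (Real.log (1 - u)) := Real.exp_le_exp.2 (h4.trans h3)
    _ = 1 - u := Real.exp_log h2

theorem sum_sq_le (N : ℕ) : ∑ m ∈ Icc 1 N, 1 / (m : ℝ) ^ 2 ≤ 2 := by
  have h : ∀ N : ℕ, ∑ m ∈ Icc 1 (N + 1), 1 / (m : ℝ) ^ 2 ≤ 2 - 1 / ((N : ℝ) + 1) := by
    intro N
    induction N with
    | zero => simp; norm_num
    | succ N ih =>
      rw [Finset.sum_Icc_succ_top (by omega)]
      have h1 : 1 / (((N + 1 + 1 : ℕ) : ℝ)) ^ 2 ≤ 1 / ((N : ℝ) + 1) - 1 / ((N : ℝ) + 1 + 1) := by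
        have e : 1 / ((N : ℝ) + 1) - 1 / ((N : ℝ) + 1 + 1) =
            1 / (((N : ℝ) + 1) * ((N : ℝ) + 1 + 1)) := by
          have h2 : (N : ℝ) + 1 ≠ 0 := by positivity
          have h3 : (N : ℝ) + 1 + 1 ≠ 0 := by positivity
          field_simp
          ring
        rw [e]
        apply one_div_le_one_div_of_le (by positivity)
        push_cast
        have h2 : (0 : ℝ) ≤ N := Nat.cast_nonneg N
        nlinarith
      push_cast at h1 ih ⊢
      linarith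
  rcases Nat.eq_zero_or_pos N with h0 | h0
  · subst h0; simp
  · obtain ⟨M, rfl⟩ : ∃ M, N = M + 1 := ⟨N - 1, by omega⟩
    refine (h M).trans ?_
    have : (0 : ℝ) ≤ 1 / ((M : ℝ) + 1) := by positivity
    linarith

theorem pf_MA (hMR : T_MR) : T_MA := by
  intro K y₀ hy
  obtain ⟨c, C, hc, -, hM⟩ := hMR
  refine ⟨c ^ K * Real.exp (-(4 * (K : ℝ) ^ 2)), by positivity, ?_⟩
  intro z h hz
  have hlog : 0 < Real.log z := Real.log_pos (by linarith)
  have hP : ∀ p ∈ Pz y₀ z, (2 * (K : ℝ) + 2 < (p : ℝ)) ∧ 1 ≤ p ∧ p ≤ ⌊z⌋₊ ∧ p.Prime := by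
    intro p hp
    unfold Pz at hp
    rw [mem_filter, mem_Icc] at hp
    refine ⟨?_, hp.1.1, hp.1.2, hp.2.1⟩
    have : 2 * K + 2 < p := by omega
    exact_mod_cast this
  have hfac : ∀ p ∈ Pz y₀ z, 1 - (K : ℝ) / p ≤ 1 - (nu h p : ℝ) / p ∧
      1 - (nu h p : ℝ) / p ≤ 1 ∧ 0 ≤ 1 - (nu h p : ℝ) / p := by
    intro p hp
    obtain ⟨h1, h2, -, -⟩ := hP p hp
    have hp0 : (0 : ℝ) < p := by exact_mod_cast h2
    have hnu : (nu h p : ℝ) ≤ K := by exact_mod_cast nu_le_card h p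
    have h3 : (nu h p : ℝ) / p ≤ K / p := div_le_div_of_nonneg_right hnu hp0.le
    have h4 : (0 : ℝ) ≤ (nu h p : ℝ) / p := by positivity
    have h5 : (K : ℝ) / p ≤ 1 := by
      rw [div_le_one hp0]
      have : (0 : ℝ) ≤ K := Nat.cast_nonneg K
      linarith
    exact ⟨by linarith, by linarith, by linarith⟩
  constructor
  · have hterm : ∀ p ∈ Pz y₀ z, (1 - 1 / (p : ℝ)) ^ K * Real.exp (-(2 * (K : ℝ) ^ 2) * (1 / (p : ℝ) ^ 2)) ≤
        1 - (nu h p : ℝ) / p := by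
      intro p hp
      obtain ⟨h1, h2, -, -⟩ := hP p hp
      have hp0 : (0 : ℝ) < p := by exact_mod_cast h2
      have hK0 : (0 : ℝ) ≤ K := Nat.cast_nonneg K
      refine le_trans ?_ (hfac p hp).1
      have hu : (K : ℝ) / p ≤ 1 / 2 := by
        rw [div_le_iff₀ hp0]; linarith
      refine le_trans ?_ (one_sub_ge (by positivity) hu)
      have h3 : (1 - 1 / (p : ℝ)) ^ K ≤ Real.exp (-((K : ℝ) / p)) := by
        have h4 : 0 ≤ 1 - 1 / (p : ℝ) := by
          rw [sub_nonneg, div_le_one hp0]; linarith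
        have h5 : 1 - 1 / (p : ℝ) ≤ Real.exp (-(1 / (p : ℝ))) := Real.one_sub_le_exp_neg _
        calc (1 - 1 / (p : ℝ)) ^ K ≤ (Real.exp (-(1 / (p : ℝ)))) ^ K := pow_le_pow_left₀ h4 h5 K
          _ = Real.exp (-((K : ℝ) / p)) := by
            rw [← Real.exp_nat_mul]; ring_nf
      calc (1 - 1 / (p : ℝ)) ^ K * Real.exp (-(2 * (K : ℝ) ^ 2) * (1 / (p : ℝ) ^ 2)) ≤
            Real.exp (-((K : ℝ) / p)) * Real.exp (-(2 * (K : ℝ) ^ 2) * (1 / (p : ℝ) ^ 2)) :=
            mul_le_mul_of_nonneg_right h3 (Real.exp_pos _).le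
        _ = Real.exp (-((K : ℝ) / p) - 2 * ((K : ℝ) / p) ^ 2) := by
            rw [← Real.exp_add]
            congr 1
            field_simp
            ring
    have hpos : ∀ p ∈ Pz y₀ z, 0 ≤ (1 - 1 / (p : ℝ)) ^ K *
        Real.exp (-(2 * (K : ℝ) ^ 2) * (1 / (p : ℝ) ^ 2)) := by
      intro p hp
      obtain ⟨h1, h2, -, -⟩ := hP p hp
      have hp0 : (0 : ℝ) < p := by exact_mod_cast h2
      have hK0 : (0 : ℝ) ≤ K := Nat.cast_nonneg K
      have h4 : 0 ≤ 1 - 1 / (p : ℝ) := by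
        rw [sub_nonneg, div_le_one hp0]; linarith
      positivity
    have hprod := Finset.prod_le_prod hpos hterm
    rw [Finset.prod_mul_distrib, ← Real.exp_sum, ← Finset.mul_sum, Finset.prod_pow] at hprod
    have hsum : ∑ p ∈ Pz y₀ z, 1 / (p : ℝ) ^ 2 ≤ 2 := by
      refine le_trans ?_ (sum_sq_le ⌊z⌋₊)
      refine Finset.sum_le_sum_of_subset_of_nonneg ?_ (fun _ _ _ => by positivity)
      intro p hp
      obtain ⟨-, h2, h3, -⟩ := hP p hp
      exact mem_Icc.2 ⟨h2, h3⟩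
    have hexp : Real.exp (-(4 * (K : ℝ) ^ 2)) ≤
        Real.exp (-(2 * (K : ℝ) ^ 2) * ∑ p ∈ Pz y₀ z, 1 / (p : ℝ) ^ 2) := by
      apply Real.exp_le_exp.2
      have : (0 : ℝ) ≤ (K : ℝ) ^ 2 := by positivity
      nlinarith
    have hMe : Me z ≤ ∏ p ∈ Pz y₀ z, (1 - 1 / (p : ℝ)) := by
      unfold Me
      have hsub : Pz y₀ z ⊆ (Icc 1 ⌊z⌋₊).filter Nat.Prime := by
        intro p hp
        obtain ⟨-, h2, h3, h4⟩ := hP p hp
        exact mem_filter.2 ⟨mem_Icc.2 ⟨h2, h3⟩, h4⟩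
      rw [← Finset.prod_sdiff hsub]
      have h1 : ∏ p ∈ ((Icc 1 ⌊z⌋₊).filter Nat.Prime) \ Pz y₀ z, (1 - 1 / (p : ℝ)) ≤ 1 := by
        refine Finset.prod_le_one (fun p hp => ?_) (fun p hp => ?_)
        · have h2 : 1 ≤ p := (mem_Icc.1 (mem_filter.1 (mem_sdiff.1 hp).1).1).1
          have hp0 : (1 : ℝ) ≤ p := by exact_mod_cast h2
          rw [sub_nonneg, div_le_one (by linarith)]
          exact hp0
        · have : (0 : ℝ) ≤ 1 / (p : ℝ) := by positivity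
          linarith
      have h2 : 0 ≤ ∏ p ∈ Pz y₀ z, (1 - 1 / (p : ℝ)) := by
        refine Finset.prod_nonneg fun p hp => ?_
        obtain ⟨-, h2, -, -⟩ := hP p hp
        have hp0 : (1 : ℝ) ≤ p := by exact_mod_cast h2
        rw [sub_nonneg, div_le_one (by linarith)]
        exact hp0
      nlinarith
    have hMl := (hM z hz).1
    have hcl : 0 < c / Real.log z := by positivity
    unfold V1
    refine le_trans ?_ hprod
    calc c ^ K * Real.exp (-(4 * (K : ℝ) ^ 2)) / Real.log z ^ K =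
          (c / Real.log z) ^ K * Real.exp (-(4 * (K : ℝ) ^ 2)) := by
          rw [div_pow]; ring
      _ ≤ (∏ p ∈ Pz y₀ z, (1 - 1 / (p : ℝ))) ^ K *
          Real.exp (-(2 * (K : ℝ) ^ 2) * ∑ p ∈ Pz y₀ z, 1 / (p : ℝ) ^ 2) := by
          refine mul_le_mul (pow_le_pow_left₀ hcl.le (hMl.trans hMe) K) hexp
            (Real.exp_pos _).le ?_
          exact pow_nonneg (hcl.le.trans (hMl.trans hMe)) K
  · unfold V1
    exact Finset.prod_le_one (fun p hp => (hfac p hp).2.2) (fun p hp => (hfac p hp).2.1)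

end Pool.Agent.H45.MP
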