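import Pool.Agent.H31.MP.Targets4

/-!
# MP_76b9e7_nt, rows HC, PT, HU: the number of tuples, pointwise bounds
-/

set_option autoImplicit false

open Finset Real ArithmeticFunction
open scoped Nat

namespace Pool.Agent.H45.MP

open Pool.Agent.H31.MP
open Pool.Agent.H30.BV (NX wx WX)

open Classical in
theorem HH_card_le (k y₀ : ℕ) (H : ℝ) :
    (HH k y₀ H).card ≤ ((range (⌊H⌋₊ + 1)).filter (fun m => primorial y₀ ∣ m)).card ^ k := by
  unfold HH
  refine (Finset.card_filter_le _ _).trans ?_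
  rw [Fintype.card_piFinset]
  simp

open Classical in
theorem le_HH_card (k y₀ : ℕ) (H : ℝ) :
    (((range (⌊H⌋₊ + 1)).filter (fun m => primorial y₀ ∣ m)).card).descFactorial k ≤
      (HH k y₀ H).card := by
  set S := (range (⌊H⌋₊ + 1)).filter (fun m => primorial y₀ ∣ m) with hS
  have h1 : Fintype.card (Fin k ↪ ↥S) = (S.card).descFactorial k := by
    rw [Fintype.card_embedding_eq, Fintype.card_coe, Fintype.card_fin]
  rw [← h1, ← Finset.card_univ]
  refine Finset.card_le_card_of_injOn (fun f : Fin k ↪ ↥S => fun i => ((f i : ↥S) : ℕ)) ?_ ?_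
  · intro f _
    have h2 : (fun i => ((f i : ↥S) : ℕ)) ∈ HH k y₀ H := by
      unfold HH
      rw [mem_filter, Fintype.mem_piFinset]
      refine ⟨fun i => (f i).2, ?_⟩
      intro i j hij
      exact f.injective (Subtype.ext hij)
    exact h2
  · intro f _ g _ hfg
    ext i
    exact congrFun hfg i

/-- The number of the multiples of `W` up to `H`. -/
theorem mult_card (W : ℕ) (hW : 1 ≤ W) (H : ℝ) (hH : 1 ≤ H) :
    H / W ≤ (((range (⌊H⌋₊ + 1)).filter (fun m => W ∣ m)).card : ℝ) ∧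
    (((range (⌊H⌋₊ + 1)).filter (fun m => W ∣ m)).card : ℝ) ≤ 2 * H := by
  have h1 : (⌊H⌋₊ / W) + 1 ≤ ((range (⌊H⌋₊ + 1)).filter (fun m => W ∣ m)).card := by
    have : (range (⌊H⌋₊ / W + 1)).card ≤
        ((range (⌊H⌋₊ + 1)).filter (fun m => W ∣ m)).card := by
      refine Finset.card_le_card_of_injOn (fun j => W * j) ?_ ?_
      · intro j hj
        have hj' : j < ⌊H⌋₊ / W + 1 := by simpa using hj
        have h2 : W * j ∈ (range (⌊H⌋₊ + 1)).filter (fun m => W ∣ m) := by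
          rw [mem_filter, mem_range]
          refine ⟨?_, dvd_mul_right _ _⟩
          have h3 : W * j ≤ W * (⌊H⌋₊ / W) := Nat.mul_le_mul_left _ (by omega)
          have h4 := Nat.mul_div_le ⌊H⌋₊ W
          omega
        exact h2
      · intro a _ b _ hab
        exact Nat.eq_of_mul_eq_mul_left hW hab
    rwa [card_range] at this
  have h2 : ((range (⌊H⌋₊ + 1)).filter (fun m => W ∣ m)).card ≤ ⌊H⌋₊ + 1 := by
    refine (Finset.card_filter_le _ _).trans ?_
    rw [card_range]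
  have hf : (⌊H⌋₊ : ℝ) ≤ H := Nat.floor_le (by linarith)
  have hf2 : H < (⌊H⌋₊ : ℝ) + 1 := Nat.lt_floor_add_one H
  have hW0 : (0 : ℝ) < W := by exact_mod_cast hW
  constructor
  · have h3 : ⌊H⌋₊ + 1 ≤ W * (⌊H⌋₊ / W + 1) := by
      have := Nat.lt_mul_div_succ ⌊H⌋₊ hW
      omega
    have h4 : ((⌊H⌋₊ : ℝ) + 1) ≤ W * ((⌊H⌋₊ / W + 1 : ℕ) : ℝ) := by exact_mod_cast h3
    have h5 : ((⌊H⌋₊ / W + 1 : ℕ) : ℝ) ≤
        (((range (⌊H⌋₊ + 1)).filter (fun m => W ∣ m)).card : ℝ) := by exact_mod_cast h1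
    rw [div_le_iff₀ hW0]
    nlinarith
  · have h3 : (((range (⌊H⌋₊ + 1)).filter (fun m => W ∣ m)).card : ℝ) ≤ (⌊H⌋₊ : ℝ) + 1 := by
      exact_mod_cast h2
    linarith

theorem pf_HC : T_HC := by
  classical
  intro k y₀
  have hW : 1 ≤ primorial y₀ := primorial_pos y₀
  have hW0 : (0 : ℝ) < primorial y₀ := by exact_mod_cast hW
  refine ⟨(1 / (2 * (primorial y₀ : ℝ))) ^ k, max 1 (2 * k * primorial y₀), by positivity, ?_⟩
  intro H hH
  have hH1 : 1 ≤ H := (le_max_left _ _).trans hH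
  have hH2 : 2 * (k : ℝ) * primorial y₀ ≤ H := (le_max_right _ _).trans hH
  obtain ⟨hl, hu⟩ := mult_card (primorial y₀) hW H hH1
  set s := ((range (⌊H⌋₊ + 1)).filter (fun m => primorial y₀ ∣ m)).card with hs
  constructor
  · have h1 : (s + 1 - k) ^ k ≤ (HH k y₀ H).card :=
      (Nat.pow_sub_le_descFactorial s k).trans (le_HH_card k y₀ H)
    have h2 : 2 * (k : ℝ) ≤ H / primorial y₀ := by
      rw [le_div_iff₀ hW0]; exact hH2
    have hks : (k : ℝ) ≤ s := by
      have : (0 : ℝ) ≤ k := Nat.cast_nonneg k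
      linarith
    have hks' : k ≤ s := by exact_mod_cast hks
    have h3 : H / (2 * primorial y₀) ≤ ((s + 1 - k : ℕ) : ℝ) := by
      rw [Nat.cast_sub (by omega)]
      push_cast
      have h4 : H / (2 * (primorial y₀ : ℝ)) = H / primorial y₀ / 2 := by
        field_simp
      rw [h4]
      linarith
    have h5 : 1 / (2 * (primorial y₀ : ℝ)) * H = H / (2 * primorial y₀) := by ring
    rw [← mul_pow, h5]
    calc (H / (2 * (primorial y₀ : ℝ))) ^ k ≤ ((s + 1 - k : ℕ) : ℝ) ^ k :=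
          pow_le_pow_left₀ (by positivity) h3 k
      _ ≤ ((HH k y₀ H).card : ℝ) := by exact_mod_cast h1
  · have h1 := HH_card_le k y₀ H
    calc ((HH k y₀ H).card : ℝ) ≤ (s : ℝ) ^ k := by exact_mod_cast h1
      _ ≤ (2 * H) ^ k := pow_le_pow_left₀ (by positivity) hu k

open Classical in
theorem pf_HU : T_HU := by
  intro k y₀ Z δ κ n hZ hκ hy hn
  set T := (Icc n (n + ⌊Real.log Z⌋₊)).filter
    fun m => ∀ p : ℕ, p.Prime → (p : ℝ) ≤ Z ^ δ → ¬ p ∣ m with hT
  have hUU : UU Z δ n = T.card := rfl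
  have hcard : (Fintype.piFinset fun _ : Fin k => T).card = T.card ^ k := by
    rw [Fintype.card_piFinset]; simp
  have hmain : ((HH k y₀ (κ * Real.log Z)).filter (fun h => n ∈ Omr Z y₀ (Z ^ δ) h)).card ≤
      (Fintype.piFinset fun _ : Fin k => T).card := by
    refine Finset.card_le_card_of_injOn (fun h : Fin k → ℕ => fun i => n + h i) ?_ ?_
    · intro h hh
      have hh' : h ∈ (HH k y₀ (κ * Real.log Z)).filter (fun h => n ∈ Omr Z y₀ (Z ^ δ) h) := hh
      rw [mem_filter] at hh'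
      obtain ⟨h1, h2⟩ := hh'
      unfold HH at h1
      rw [mem_filter, Fintype.mem_piFinset] at h1
      unfold Omr at h2
      rw [mem_filter] at h2
      have hgoal : (fun i => n + h i) ∈ (Fintype.piFinset fun _ : Fin k => T) := by
        rw [Fintype.mem_piFinset]
        intro i
        have h3 := h1.1 i
        rw [mem_filter, mem_range] at h3
        rw [hT, mem_filter, mem_Icc]
        refine ⟨⟨Nat.le_add_right _ _, ?_⟩, ?_⟩
        · have h4 : ⌊κ * Real.log Z⌋₊ ≤ ⌊Real.log Z⌋₊ := by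
            apply Nat.floor_le_floor
            nlinarith
          omega
        · intro p hp hpz hpm
          by_cases hpy : p ≤ y₀
          · have h5 : p ∣ primorial y₀ := by
              unfold primorial
              refine Finset.dvd_prod_of_mem _ ?_
              rw [mem_filter, mem_range]
              exact ⟨by omega, hp⟩
            have h6 : p ∣ h i := h5.trans h3.2
            have h7 : p ∣ n := (Nat.dvd_add_left h6).1 hpm
            unfold Om at hn
            rw [mem_filter] at hn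
            have h8 : n ≡ 1 [MOD p] := Nat.ModEq.of_dvd h5 hn.2
            have h9 : p ∣ 1 := (Nat.ModEq.dvd_iff h8 dvd_rfl).1 h7
            exact hp.one_lt.ne' (Nat.dvd_one.1 h9)
          · have h5 : p ∈ Pz y₀ (Z ^ δ) := by
              unfold Pz
              rw [mem_filter, mem_Icc]
              exact ⟨⟨hp.one_lt.le, Nat.le_floor hpz⟩, hp, by omega⟩
            exact h2.2 p h5 ⟨i, hpm⟩
      exact hgoal
    · intro h _ h' _ hhh
      funext i
      have := congrFun hhh i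
      simp only at this
      omega
  rw [hcard] at hmain
  rw [hUU]
  exact_mod_cast hmain

/-- the number of the primes larger than `Z ^ δ` which divide `m` -/
theorem few_primes {Z δ : ℝ} {m : ℕ} (hZ : 1 < Z) (hδ : 0 < δ) (hm : m ≠ 0)
    (hmZ : (m : ℝ) ≤ Z ^ 2) :
    (((m.primeFactors).filter (fun p : ℕ => Z ^ δ < (p : ℝ))).card : ℝ) ≤ 2 / δ := by
  set P := (m.primeFactors).filter (fun p : ℕ => Z ^ δ < (p : ℝ)) with hP
  have h1 : (∏ p ∈ P, p) ∣ m :=
    (Finset.prod_dvd_prod_of_subset _ _ _ (Finset.filter_subset _ _)).trans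
      (Nat.prod_primeFactors_dvd m)
  have h2 : ((∏ p ∈ P, p : ℕ) : ℝ) ≤ m := by exact_mod_cast Nat.le_of_dvd (Nat.pos_of_ne_zero hm) h1
  have hZ0 : 0 < Z := by linarith
  have h3 : (Z ^ δ) ^ P.card ≤ ((∏ p ∈ P, p : ℕ) : ℝ) := by
    rw [Nat.cast_prod, ← Finset.prod_const]
    refine Finset.prod_le_prod (fun _ _ => (Real.rpow_pos_of_pos hZ0 δ).le) fun p hp => ?_
    rw [hP, mem_filter] at hp
    exact hp.2.le
  have h4 : Z ^ (δ * P.card) ≤ Z ^ (2 : ℝ) := by
    rw [Real.rpow_mul hZ0.le, Real.rpow_natCast, Real.rpow_two]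
    exact h3.trans (h2.trans hmZ)
  have h5 : δ * P.card ≤ 2 := (Real.rpow_le_rpow_left_iff hZ).1 h4
  rw [le_div_iff₀ hδ]
  linarith

open Classical in
theorem few_div {Z δ Y : ℝ} {m : ℕ} (hZ : 1 < Z) (hδ : 0 < δ) (hm : m ≠ 0)
    (hmZ : (m : ℝ) ≤ Z ^ 2) :
    ((RS (Z ^ δ) Y).filter (fun a => a ∣ m)).card ≤ 2 ^ ⌊2 / δ⌋₊ := by
  set P := (m.primeFactors).filter (fun p : ℕ => Z ^ δ < (p : ℝ)) with hP
  have h1 : ((RS (Z ^ δ) Y).filter (fun a => a ∣ m)).card ≤ P.powerset.card := by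
    refine Finset.card_le_card_of_injOn (fun a : ℕ => a.primeFactors) ?_ ?_
    · intro a ha
      have ha' : a ∈ (RS (Z ^ δ) Y).filter (fun a => a ∣ m) := ha
      rw [mem_filter] at ha'
      have hr : Rgh (Z ^ δ) a := by
        have := ha'.1
        unfold RS at this
        rw [mem_filter] at this
        exact this.2
      have hg : a.primeFactors ∈ P.powerset := by
        rw [mem_powerset]
        intro p hp
        rw [hP, mem_filter]
        have hpp := Nat.prime_of_mem_primeFactors hp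
        have hpa := Nat.dvd_of_mem_primeFactors hp
        exact ⟨Nat.mem_primeFactors.2 ⟨hpp, hpa.trans ha'.2, hm⟩, hr.2 p hpp hpa⟩
      exact hg
    · intro a ha b hb hab
      have ha' : a ∈ (RS (Z ^ δ) Y).filter (fun a => a ∣ m) := ha
      have hb' : b ∈ (RS (Z ^ δ) Y).filter (fun a => a ∣ m) := hb
      rw [mem_filter] at ha' hb'
      have hsa : Squarefree a := by
        have := ha'.1
        unfold RS at this
        rw [mem_filter] at this
        exact this.2.1
      have hsb : Squarefree b := by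
        have := hb'.1
        unfold RS at this
        rw [mem_filter] at this
        exact this.2.1
      simp only at hab
      rw [← Nat.prod_primeFactors_of_squarefree hsa, ← Nat.prod_primeFactors_of_squarefree hsb, hab]
  rw [card_powerset] at h1
  refine h1.trans (Nat.pow_le_pow_right (by norm_num) ?_)
  exact Nat.le_floor (few_primes hZ hδ hm hmZ)

theorem log_small : ∃ X₀ : ℝ, ∀ Z : ℝ, X₀ ≤ Z → 2 ≤ Z ∧ (3 * Z + 1) + 20 * Real.log Z ≤ Z ^ 2 := by
  refine ⟨100, fun Z hZ => ⟨by linarith, ?_⟩⟩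
  have h1 : Real.log Z ≤ Z := (Real.log_le_sub_one_of_pos (by linarith)).trans (by linarith)
  nlinarith

open Classical in
theorem pf_PT : T_PT := by
  intro K δ C hδ hC
  obtain ⟨X₀, hX₀⟩ := log_small
  refine ⟨C * ((2 ^ ⌊2 / δ⌋₊ : ℕ) : ℝ) ^ K + 1, X₀, by positivity, ?_⟩
  intro Z hZ Y h l n hl hh hn1 hn
  obtain ⟨hZ2, hZ3⟩ := hX₀ Z hZ
  have hNX : (n : ℝ) ≤ 3 * Z + 1 := by
    have h1 : (NX Z : ℝ) < 3 * Z + 1 := by
      unfold NX
      exact Nat.ceil_lt_add_one (by linarith)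
    have h2 : (n : ℝ) ≤ NX Z := by exact_mod_cast hn
    linarith
  have hm : ∀ i, n + h i ≠ 0 ∧ ((n + h i : ℕ) : ℝ) ≤ Z ^ 2 := by
    intro i
    refine ⟨by omega, ?_⟩
    push_cast
    have := hh i
    linarith
  unfold Lam
  have h1 : |∑ d ∈ Bx K (Z ^ δ) Y, if ∀ i, d i ∣ n + h i then l d else 0| ≤
      ∑ d ∈ Bx K (Z ^ δ) Y, if ∀ i, d i ∣ n + h i then C else 0 := by
    refine (Finset.abs_sum_le_sum_abs _ _).trans (Finset.sum_le_sum fun d _ => ?_)
    by_cases hd : ∀ i, d i ∣ n + h i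
    · rw [if_pos hd, if_pos hd]; exact hl.bd d
    · rw [if_neg hd, if_neg hd, abs_zero]
  refine h1.trans ?_
  rw [← Finset.sum_filter, Finset.sum_const, nsmul_eq_mul]
  have h2 : (Bx K (Z ^ δ) Y).filter (fun d => ∀ i, d i ∣ n + h i) ⊆
      Fintype.piFinset (fun i => (RS (Z ^ δ) Y).filter (fun a => a ∣ n + h i)) := by
    intro d hd
    rw [mem_filter] at hd
    rw [Fintype.mem_piFinset]
    intro i
    rw [mem_filter]
    have h3 := hd.1
    unfold Bx at h3
    rw [Fintype.mem_piFinset] at h3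
    exact ⟨h3 i, hd.2 i⟩
  have h3 : ((Bx K (Z ^ δ) Y).filter (fun d => ∀ i, d i ∣ n + h i)).card ≤
      (2 ^ ⌊2 / δ⌋₊) ^ K := by
    refine (Finset.card_le_card h2).trans ?_
    rw [Fintype.card_piFinset]
    calc ∏ i, ((RS (Z ^ δ) Y).filter (fun a => a ∣ n + h i)).card ≤
          ∏ _i : Fin K, 2 ^ ⌊2 / δ⌋₊ :=
          Finset.prod_le_prod (fun _ _ => Nat.zero_le _) fun i _ =>
            few_div (by linarith) hδ (hm i).1 (hm i).2
      _ = (2 ^ ⌊2 / δ⌋₊) ^ K := by simp
  have h4 : (((Bx K (Z ^ δ) Y).filter (fun d => ∀ i, d i ∣ n + h i)).card : ℝ) ≤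
      ((2 ^ ⌊2 / δ⌋₊ : ℕ) : ℝ) ^ K := by exact_mod_cast h3
  nlinarith

end Pool.Agent.H45.MP
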